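import Pool.Agent.helper9.HX.Spec

/-!
# Project hx (MP_d9e35a_co), row V3C: a down-set with many coordinates in its larger sets is large
-/

set_option autoImplicit false
set_option linter.unusedVariables false

open scoped Classical

namespace Pool.Agent.helper9.HX

open Finset
open Pool.Agent.helper65.HC (V IsEig IsTop lam)
open Pool.Agent.helper9.HQ (Fam Dn E N Le hi c)

/-- Double counting. -/
theorem V3C_dc {d : ℕ} (S : Finset (Fin d)) (W : Finset (Finset (Fin d))) (k a : ℕ)
    (hW : ∀ x ∈ W, x.card = k) (h : ∀ i ∈ S, a ≤ (W.filter fun x => i ∈ x).card) :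
    a * S.card ≤ k * W.card := by
  have h1 : ∑ i ∈ S, (W.filter fun x => i ∈ x).card = ∑ x ∈ W, (S.filter fun i => i ∈ x).card := by
    simp only [Finset.card_filter]
    exact Finset.sum_comm
  have h2 : a * S.card ≤ ∑ i ∈ S, (W.filter fun x => i ∈ x).card := by
    have := Finset.card_nsmul_le_sum S (fun i => (W.filter fun x => i ∈ x).card) a h
    rw [smul_eq_mul, mul_comm] at this
    exact this
  have h3 : ∑ x ∈ W, (S.filter fun i => i ∈ x).card ≤ W.card * k := by
    have := Finset.sum_le_card_nsmul W (fun x => (S.filter fun i => i ∈ x).card) k (by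
      intro x hx
      rw [← hW x hx]
      refine Finset.card_le_card fun i hi => ?_
      exact (Finset.mem_filter.1 hi).2)
    rw [smul_eq_mul] at this
    exact this
  rw [h1] at h2
  rw [mul_comm k]
  exact h2.trans h3

theorem V3C_lev {d : ℕ} (U : Finset (Finset (Fin d))) :
    (U.filter fun x => x.card = 0).card + (U.filter fun x => x.card = 1).card +
      (U.filter fun x => x.card = 2).card + (U.filter fun x => x.card = 3).card ≤ U.card := by
  have h : ∑ k ∈ range 4, (U.filter fun x => x.card = k).card ≤ U.card := by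
    simp only [Finset.card_filter]
    rw [Finset.sum_comm, Finset.card_eq_sum_ones]
    refine Finset.sum_le_sum fun x _ => ?_
    rw [Finset.sum_ite_eq]
    split_ifs
    · exact le_refl 1
    · exact Nat.zero_le 1
  rw [Finset.sum_range_succ, Finset.sum_range_succ, Finset.sum_range_succ, Finset.sum_range_one] at h
  exact h

theorem V3C : V3C_stmt := by
  intro d U hD h0
  obtain ⟨S, hS⟩ : ∃ S : Finset (Fin d), S = univ.filter fun i => ∃ x ∈ hi U, i ∈ x := ⟨_, rfl⟩
  have hmem : ∀ i ∈ S, ∃ y ∈ U, y.card = 3 ∧ i ∈ y := by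
    intro i hi'
    rw [hS] at hi'
    obtain ⟨x, hx, hix⟩ := (Finset.mem_filter.1 hi').2
    have hx' := Finset.mem_filter.1 hx
    obtain ⟨y, hy1, hy2, hy3⟩ := Finset.exists_subsuperset_card_eq (s := {i}) (t := x) (n := 3)
      (Finset.singleton_subset_iff.2 hix) (by rw [Finset.card_singleton]; omega) hx'.2
    exact ⟨y, hD x hx'.1 y hy2, hy3, Finset.singleton_subset_iff.1 hy1⟩
  refine ⟨S, fun x hx i hi' => ?_, ?_⟩
  · rw [hS]
    exact Finset.mem_filter.2 ⟨Finset.mem_univ i, x, hx, hi'⟩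
  have c0 : 1 ≤ (U.filter fun x => x.card = 0).card :=
    Finset.card_pos.2 ⟨∅, Finset.mem_filter.2 ⟨h0, Finset.card_empty⟩⟩
  have c1 : 1 * S.card ≤ 1 * (U.filter fun x => x.card = 1).card := by
    refine V3C_dc S _ 1 1 (fun x hx => (Finset.mem_filter.1 hx).2) fun i hi' => ?_
    obtain ⟨y, hy, hy3, hiy⟩ := hmem i hi'
    refine Finset.card_pos.2 ⟨{i}, Finset.mem_filter.2 ⟨Finset.mem_filter.2
      ⟨hD y hy _ (Finset.singleton_subset_iff.2 hiy), Finset.card_singleton i⟩,
      Finset.mem_singleton_self i⟩⟩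
  have c3 : 1 * S.card ≤ 3 * (U.filter fun x => x.card = 3).card := by
    refine V3C_dc S _ 3 1 (fun x hx => (Finset.mem_filter.1 hx).2) fun i hi' => ?_
    obtain ⟨y, hy, hy3, hiy⟩ := hmem i hi'
    exact Finset.card_pos.2 ⟨y, Finset.mem_filter.2 ⟨Finset.mem_filter.2 ⟨hy, hy3⟩, hiy⟩⟩
  have c2 : 2 * S.card ≤ 2 * (U.filter fun x => x.card = 2).card := by
    refine V3C_dc S _ 2 2 (fun x hx => (Finset.mem_filter.1 hx).2) fun i hi' => ?_
    obtain ⟨y, hy, hy3, hiy⟩ := hmem i hi'
    have h1 : (y.erase i).card = 2 := by rw [Finset.card_erase_of_mem hiy, hy3]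
    obtain ⟨j, k, hjk, hyjk⟩ := Finset.card_eq_two.1 h1
    have hj : j ∈ y.erase i := by rw [hyjk]; exact Finset.mem_insert_self j _
    have hk : k ∈ y.erase i := by
      rw [hyjk]
      exact Finset.mem_insert_of_mem (Finset.mem_singleton_self k)
    have hj' := Finset.mem_erase.1 hj
    have hk' := Finset.mem_erase.1 hk
    refine Finset.one_lt_card.2 ⟨y.erase j, ?_, y.erase k, ?_, ?_⟩
    · refine Finset.mem_filter.2 ⟨Finset.mem_filter.2 ⟨hD y hy _ (Finset.erase_subset j y), ?_⟩,
        Finset.mem_erase.2 ⟨Ne.symm hj'.1, hiy⟩⟩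
      rw [Finset.card_erase_of_mem hj'.2, hy3]
    · refine Finset.mem_filter.2 ⟨Finset.mem_filter.2 ⟨hD y hy _ (Finset.erase_subset k y), ?_⟩,
        Finset.mem_erase.2 ⟨Ne.symm hk'.1, hiy⟩⟩
      rw [Finset.card_erase_of_mem hk'.2, hy3]
    · intro h2
      have h3 : j ∈ y.erase k := Finset.mem_erase.2 ⟨hjk, hj'.2⟩
      rw [← h2] at h3
      exact (Finset.mem_erase.1 h3).1 rfl
  have c4 := V3C_lev U
  omega

end Pool.Agent.helper9.HX
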